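import Mathlib
import Pool.Agent.Lib.helper11.Mahler

set_option autoImplicit false

namespace Pool.Agent.H.MP_874039_nt

open PowerSeries Finset Pool.Agent.Lib.helper11.Mahler

def S : List (List ℕ) :=
  [[1, 0, 0, 0, 0, 0, 0, 0, 0, 0, 0],
  [27, 1, 0, 0, 0, 0, 0, 0, 0, 0, 0],
  [5, 27, 1, 0, 0, 0, 0, 0, 0, 0, 0],
  [15, 5, 27, 1, 0, 0, 0, 0, 0, 0, 0],
  [24, 15, 5, 27, 1, 0, 0, 0, 0, 0, 0],
  [24, 24, 15, 5, 27, 1, 0, 0, 0, 0, 0],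
  [8, 24, 24, 15, 5, 27, 1, 0, 0, 0, 0],
  [8, 8, 24, 24, 15, 5, 27, 1, 0, 0, 0],
  [7, 8, 8, 24, 24, 15, 5, 27, 1, 0, 0],
  [13, 7, 8, 8, 24, 24, 15, 5, 27, 1, 0],
  [19, 13, 7, 8, 8, 24, 24, 15, 5, 27, 1],
  [9, 19, 13, 7, 8, 8, 24, 24, 15, 5, 27],
  [16, 9, 19, 13, 7, 8, 8, 24, 24, 15, 5],
  [16, 16, 9, 19, 13, 7, 8, 8, 24, 24, 15],
  [16, 16, 16, 9, 19, 13, 7, 8, 8, 24, 24],
  [16, 16, 16, 16, 9, 19, 13, 7, 8, 8, 24],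
  [31, 16, 16, 16, 16, 9, 19, 13, 7, 8, 8],
  [5, 31, 16, 16, 16, 16, 9, 19, 13, 7, 8],
  [27, 5, 31, 16, 16, 16, 16, 9, 19, 13, 7],
  [17, 27, 5, 31, 16, 16, 16, 16, 9, 19, 13],
  [24, 17, 27, 5, 31, 16, 16, 16, 16, 9, 19],
  [24, 24, 17, 27, 5, 31, 16, 16, 16, 16, 9],
  [8, 24, 24, 17, 27, 5, 31, 16, 16, 16, 16],
  [8, 8, 24, 24, 17, 27, 5, 31, 16, 16, 16],
  [9, 8, 8, 24, 24, 17, 27, 5, 31, 16, 16],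
  [3, 9, 8, 8, 24, 24, 17, 27, 5, 31, 16],
  [29, 3, 9, 8, 8, 24, 24, 17, 27, 5, 31],
  [7, 29, 3, 9, 8, 8, 24, 24, 17, 27, 5],
  [0, 7, 29, 3, 9, 8, 8, 24, 24, 17, 27],
  [0, 0, 7, 29, 3, 9, 8, 8, 24, 24, 17],
  [0, 0, 0, 7, 29, 3, 9, 8, 8, 24, 24],
  [0, 0, 0, 0, 7, 29, 3, 9, 8, 8, 24],
  [15, 0, 0, 0, 0, 7, 29, 3, 9, 8, 8],
  [21, 15, 0, 0, 0, 0, 7, 29, 3, 9, 8],
  [11, 21, 15, 0, 0, 0, 0, 7, 29, 3, 9],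
  [1, 11, 21, 15, 0, 0, 0, 0, 7, 29, 3],
  [8, 1, 11, 21, 15, 0, 0, 0, 0, 7, 29],
  [8, 8, 1, 11, 21, 15, 0, 0, 0, 0, 7],
  [24, 8, 8, 1, 11, 21, 15, 0, 0, 0, 0],
  [24, 24, 8, 8, 1, 11, 21, 15, 0, 0, 0],
  [9, 24, 24, 8, 8, 1, 11, 21, 15, 0, 0],
  [3, 9, 24, 24, 8, 8, 1, 11, 21, 15, 0],
  [29, 3, 9, 24, 24, 8, 8, 1, 11, 21, 15],
  [7, 29, 3, 9, 24, 24, 8, 8, 1, 11, 21],
  [16, 7, 29, 3, 9, 24, 24, 8, 8, 1, 11],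
  [16, 16, 7, 29, 3, 9, 24, 24, 8, 8, 1],
  [16, 16, 16, 7, 29, 3, 9, 24, 24, 8, 8],
  [16, 16, 16, 16, 7, 29, 3, 9, 24, 24, 8],
  [1, 16, 16, 16, 16, 7, 29, 3, 9, 24, 24],
  [27, 1, 16, 16, 16, 16, 7, 29, 3, 9, 24],
  [5, 27, 1, 16, 16, 16, 16, 7, 29, 3, 9],
  [15, 5, 27, 1, 16, 16, 16, 16, 7, 29, 3],
  [8, 15, 5, 27, 1, 16, 16, 16, 16, 7, 29],
  [8, 8, 15, 5, 27, 1, 16, 16, 16, 16, 7],
  [24, 8, 8, 15, 5, 27, 1, 16, 16, 16, 16],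
  [24, 24, 8, 8, 15, 5, 27, 1, 16, 16, 16],
  [23, 24, 24, 8, 8, 15, 5, 27, 1, 16, 16],
  [29, 23, 24, 24, 8, 8, 15, 5, 27, 1, 16],
  [3, 29, 23, 24, 24, 8, 8, 15, 5, 27, 1],
  [25, 3, 29, 23, 24, 24, 8, 8, 15, 5, 27],
  [0, 25, 3, 29, 23, 24, 24, 8, 8, 15, 5],
  [0, 0, 25, 3, 29, 23, 24, 24, 8, 8, 15],
  [0, 0, 0, 25, 3, 29, 23, 24, 24, 8, 8],
  [0, 0, 0, 0, 25, 3, 29, 23, 24, 24, 8],
  [15, 0, 0, 0, 0, 25, 3, 29, 23, 24, 24],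
  [21, 15, 0, 0, 0, 0, 25, 3, 29, 23, 24],
  [11, 21, 15, 0, 0, 0, 0, 25, 3, 29, 23],
  [1, 11, 21, 15, 0, 0, 0, 0, 25, 3, 29],
  [8, 1, 11, 21, 15, 0, 0, 0, 0, 25, 3],
  [8, 8, 1, 11, 21, 15, 0, 0, 0, 0, 25],
  [17, 16, 16, 16, 16, 7, 29, 3, 9, 24, 24],
  [11, 17, 16, 16, 16, 16, 7, 29, 3, 9, 24],
  [21, 11, 17, 16, 16, 16, 16, 7, 29, 3, 9],
  [31, 21, 11, 17, 16, 16, 16, 16, 7, 29, 3],
  [8, 31, 21, 11, 17, 16, 16, 16, 16, 7, 29],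
  [8, 8, 31, 21, 11, 17, 16, 16, 16, 16, 7],
  [24, 8, 8, 31, 21, 11, 17, 16, 16, 16, 16],
  [24, 24, 8, 8, 31, 21, 11, 17, 16, 16, 16],
  [7, 24, 24, 8, 8, 31, 21, 11, 17, 16, 16],
  [13, 7, 24, 24, 8, 8, 31, 21, 11, 17, 16],
  [19, 13, 7, 24, 24, 8, 8, 31, 21, 11, 17],
  [9, 19, 13, 7, 24, 24, 8, 8, 31, 21, 11],
  [0, 9, 19, 13, 7, 24, 24, 8, 8, 31, 21],
  [0, 0, 9, 19, 13, 7, 24, 24, 8, 8, 31],
  [0, 0, 0, 9, 19, 13, 7, 24, 24, 8, 8],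
  [0, 0, 0, 0, 9, 19, 13, 7, 24, 24, 8],
  [17, 0, 0, 0, 0, 9, 19, 13, 7, 24, 24],
  [11, 17, 0, 0, 0, 0, 9, 19, 13, 7, 24],
  [21, 11, 17, 0, 0, 0, 0, 9, 19, 13, 7],
  [31, 21, 11, 17, 0, 0, 0, 0, 9, 19, 13],
  [24, 31, 21, 11, 17, 0, 0, 0, 0, 9, 19],
  [24, 24, 31, 21, 11, 17, 0, 0, 0, 0, 9],
  [8, 24, 24, 31, 21, 11, 17, 0, 0, 0, 0],
  [8, 8, 24, 24, 31, 21, 11, 17, 0, 0, 0],
  [23, 8, 8, 24, 24, 31, 21, 11, 17, 0, 0],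
  [29, 23, 8, 8, 24, 24, 31, 21, 11, 17, 0],
  [3, 29, 23, 8, 8, 24, 24, 31, 21, 11, 17],
  [25, 3, 29, 23, 8, 8, 24, 24, 31, 21, 11],
  [16, 25, 3, 29, 23, 8, 8, 24, 24, 31, 21],
  [16, 16, 25, 3, 29, 23, 8, 8, 24, 24, 31],
  [16, 16, 16, 25, 3, 29, 23, 8, 8, 24, 24],
  [16, 16, 16, 16, 25, 3, 29, 23, 8, 8, 24],
  [31, 16, 16, 16, 16, 25, 3, 29, 23, 8, 8],
  [5, 31, 16, 16, 16, 16, 25, 3, 29, 23, 8],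
  [27, 5, 31, 16, 16, 16, 16, 25, 3, 29, 23],
  [17, 27, 5, 31, 16, 16, 16, 16, 25, 3, 29],
  [24, 17, 27, 5, 31, 16, 16, 16, 16, 25, 3],
  [24, 24, 17, 27, 5, 31, 16, 16, 16, 16, 25],
  [1, 0, 0, 0, 0, 9, 19, 13, 7, 24, 24],
  [27, 1, 0, 0, 0, 0, 9, 19, 13, 7, 24],
  [5, 27, 1, 0, 0, 0, 0, 9, 19, 13, 7],
  [15, 5, 27, 1, 0, 0, 0, 0, 9, 19, 13],
  [24, 15, 5, 27, 1, 0, 0, 0, 0, 9, 19],
  [24, 24, 15, 5, 27, 1, 0, 0, 0, 0, 9],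
  [15, 16, 16, 16, 16, 9, 19, 13, 7, 8, 8],
  [21, 15, 16, 16, 16, 16, 9, 19, 13, 7, 8],
  [11, 21, 15, 16, 16, 16, 16, 9, 19, 13, 7],
  [1, 11, 21, 15, 16, 16, 16, 16, 9, 19, 13],
  [24, 1, 11, 21, 15, 16, 16, 16, 16, 9, 19],
  [24, 24, 1, 11, 21, 15, 16, 16, 16, 16, 9],
  [8, 24, 24, 1, 11, 21, 15, 16, 16, 16, 16],
  [8, 8, 24, 24, 1, 11, 21, 15, 16, 16, 16],
  [25, 8, 8, 24, 24, 1, 11, 21, 15, 16, 16],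
  [19, 25, 8, 8, 24, 24, 1, 11, 21, 15, 16],
  [13, 19, 25, 8, 8, 24, 24, 1, 11, 21, 15],
  [23, 13, 19, 25, 8, 8, 24, 24, 1, 11, 21],
  [0, 23, 13, 19, 25, 8, 8, 24, 24, 1, 11],
  [0, 0, 23, 13, 19, 25, 8, 8, 24, 24, 1],
  [0, 0, 0, 23, 13, 19, 25, 8, 8, 24, 24],
  [0, 0, 0, 0, 23, 13, 19, 25, 8, 8, 24],
  [17, 0, 0, 0, 0, 23, 13, 19, 25, 8, 8],
  [11, 17, 0, 0, 0, 0, 23, 13, 19, 25, 8],
  [21, 11, 17, 0, 0, 0, 0, 23, 13, 19, 25],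
  [31, 21, 11, 17, 0, 0, 0, 0, 23, 13, 19],
  [24, 31, 21, 11, 17, 0, 0, 0, 0, 23, 13],
  [24, 24, 31, 21, 11, 17, 0, 0, 0, 0, 23],
  [15, 16, 16, 16, 16, 25, 3, 29, 23, 8, 8],
  [21, 15, 16, 16, 16, 16, 25, 3, 29, 23, 8],
  [11, 21, 15, 16, 16, 16, 16, 25, 3, 29, 23],
  [1, 11, 21, 15, 16, 16, 16, 16, 25, 3, 29],
  [24, 1, 11, 21, 15, 16, 16, 16, 16, 25, 3],
  [24, 24, 1, 11, 21, 15, 16, 16, 16, 16, 25],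
  [15, 0, 0, 0, 0, 23, 13, 19, 25, 8, 8],
  [21, 15, 0, 0, 0, 0, 23, 13, 19, 25, 8],
  [11, 21, 15, 0, 0, 0, 0, 23, 13, 19, 25],
  [1, 11, 21, 15, 0, 0, 0, 0, 23, 13, 19],
  [8, 1, 11, 21, 15, 0, 0, 0, 0, 23, 13],
  [8, 8, 1, 11, 21, 15, 0, 0, 0, 0, 23],
  [1, 0, 0, 0, 0, 23, 13, 19, 25, 8, 8],
  [27, 1, 0, 0, 0, 0, 23, 13, 19, 25, 8],
  [5, 27, 1, 0, 0, 0, 0, 23, 13, 19, 25],
  [15, 5, 27, 1, 0, 0, 0, 0, 23, 13, 19],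
  [24, 15, 5, 27, 1, 0, 0, 0, 0, 23, 13],
  [24, 24, 15, 5, 27, 1, 0, 0, 0, 0, 23],
  [31, 0, 0, 0, 0, 7, 29, 3, 9, 8, 8],
  [5, 31, 0, 0, 0, 0, 7, 29, 3, 9, 8],
  [27, 5, 31, 0, 0, 0, 0, 7, 29, 3, 9],
  [17, 27, 5, 31, 0, 0, 0, 0, 7, 29, 3],
  [8, 17, 27, 5, 31, 0, 0, 0, 0, 7, 29],
  [8, 8, 17, 27, 5, 31, 0, 0, 0, 0, 7],
  [24, 8, 8, 17, 27, 5, 31, 0, 0, 0, 0],
  [24, 24, 8, 8, 17, 27, 5, 31, 0, 0, 0],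
  [25, 24, 24, 8, 8, 17, 27, 5, 31, 0, 0],
  [19, 25, 24, 24, 8, 8, 17, 27, 5, 31, 0],
  [13, 19, 25, 24, 24, 8, 8, 17, 27, 5, 31],
  [23, 13, 19, 25, 24, 24, 8, 8, 17, 27, 5],
  [16, 23, 13, 19, 25, 24, 24, 8, 8, 17, 27],
  [16, 16, 23, 13, 19, 25, 24, 24, 8, 8, 17],
  [16, 16, 16, 23, 13, 19, 25, 24, 24, 8, 8],
  [16, 16, 16, 16, 23, 13, 19, 25, 24, 24, 8],
  [17, 16, 16, 16, 16, 23, 13, 19, 25, 24, 24],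
  [11, 17, 16, 16, 16, 16, 23, 13, 19, 25, 24],
  [21, 11, 17, 16, 16, 16, 16, 23, 13, 19, 25],
  [31, 21, 11, 17, 16, 16, 16, 16, 23, 13, 19],
  [8, 31, 21, 11, 17, 16, 16, 16, 16, 23, 13],
  [8, 8, 31, 21, 11, 17, 16, 16, 16, 16, 23],
  [31, 0, 0, 0, 0, 23, 13, 19, 25, 8, 8],
  [5, 31, 0, 0, 0, 0, 23, 13, 19, 25, 8],
  [27, 5, 31, 0, 0, 0, 0, 23, 13, 19, 25],
  [17, 27, 5, 31, 0, 0, 0, 0, 23, 13, 19],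
  [8, 17, 27, 5, 31, 0, 0, 0, 0, 23, 13],
  [8, 8, 17, 27, 5, 31, 0, 0, 0, 0, 23],
  [15, 0, 0, 0, 0, 9, 19, 13, 7, 24, 24],
  [21, 15, 0, 0, 0, 0, 9, 19, 13, 7, 24],
  [11, 21, 15, 0, 0, 0, 0, 9, 19, 13, 7],
  [1, 11, 21, 15, 0, 0, 0, 0, 9, 19, 13],
  [8, 1, 11, 21, 15, 0, 0, 0, 0, 9, 19],
  [8, 8, 1, 11, 21, 15, 0, 0, 0, 0, 9],
  [31, 0, 0, 0, 0, 25, 3, 29, 23, 24, 24],
  [5, 31, 0, 0, 0, 0, 25, 3, 29, 23, 24],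
  [27, 5, 31, 0, 0, 0, 0, 25, 3, 29, 23],
  [17, 27, 5, 31, 0, 0, 0, 0, 25, 3, 29],
  [8, 17, 27, 5, 31, 0, 0, 0, 0, 25, 3],
  [8, 8, 17, 27, 5, 31, 0, 0, 0, 0, 25],
  [1, 16, 16, 16, 16, 23, 13, 19, 25, 24, 24],
  [27, 1, 16, 16, 16, 16, 23, 13, 19, 25, 24],
  [5, 27, 1, 16, 16, 16, 16, 23, 13, 19, 25],
  [15, 5, 27, 1, 16, 16, 16, 16, 23, 13, 19],
  [8, 15, 5, 27, 1, 16, 16, 16, 16, 23, 13],
  [8, 8, 15, 5, 27, 1, 16, 16, 16, 16, 23],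
  [1, 0, 0, 0, 0, 25, 3, 29, 23, 24, 24],
  [27, 1, 0, 0, 0, 0, 25, 3, 29, 23, 24],
  [5, 27, 1, 0, 0, 0, 0, 25, 3, 29, 23],
  [15, 5, 27, 1, 0, 0, 0, 0, 25, 3, 29],
  [24, 15, 5, 27, 1, 0, 0, 0, 0, 25, 3],
  [24, 24, 15, 5, 27, 1, 0, 0, 0, 0, 25],
  [31, 0, 0, 0, 0, 9, 19, 13, 7, 24, 24],
  [5, 31, 0, 0, 0, 0, 9, 19, 13, 7, 24],
  [27, 5, 31, 0, 0, 0, 0, 9, 19, 13, 7],
  [17, 27, 5, 31, 0, 0, 0, 0, 9, 19, 13],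
  [8, 17, 27, 5, 31, 0, 0, 0, 0, 9, 19],
  [8, 8, 17, 27, 5, 31, 0, 0, 0, 0, 9],
  [17, 0, 0, 0, 0, 25, 3, 29, 23, 24, 24],
  [11, 17, 0, 0, 0, 0, 25, 3, 29, 23, 24],
  [21, 11, 17, 0, 0, 0, 0, 25, 3, 29, 23],
  [31, 21, 11, 17, 0, 0, 0, 0, 25, 3, 29],
  [24, 31, 21, 11, 17, 0, 0, 0, 0, 25, 3],
  [24, 24, 31, 21, 11, 17, 0, 0, 0, 0, 25],
  [1, 0, 0, 0, 0, 7, 29, 3, 9, 8, 8],
  [27, 1, 0, 0, 0, 0, 7, 29, 3, 9, 8],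
  [5, 27, 1, 0, 0, 0, 0, 7, 29, 3, 9],
  [15, 5, 27, 1, 0, 0, 0, 0, 7, 29, 3],
  [24, 15, 5, 27, 1, 0, 0, 0, 0, 7, 29],
  [24, 24, 15, 5, 27, 1, 0, 0, 0, 0, 7],
  [17, 0, 0, 0, 0, 7, 29, 3, 9, 8, 8],
  [11, 17, 0, 0, 0, 0, 7, 29, 3, 9, 8],
  [21, 11, 17, 0, 0, 0, 0, 7, 29, 3, 9],
  [31, 21, 11, 17, 0, 0, 0, 0, 7, 29, 3],
  [24, 31, 21, 11, 17, 0, 0, 0, 0, 7, 29],
  [24, 24, 31, 21, 11, 17, 0, 0, 0, 0, 7]]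

def I : List (List ℕ) :=
  [[0, 1], [2, 3], [4, 5], [6, 7], [8, 9], [10, 11], [12, 13], [14, 15], [16, 17], [18, 19], [20, 21], [22, 23], [24, 25], [26, 27], [28, 29], [30, 31], [32, 33], [34, 35], [36, 37], [38, 39], [40, 41], [42, 43], [44, 45], [46, 47], [48, 49], [50, 51], [52, 53], [54, 55], [56, 57], [58, 59], [60, 61], [62, 63], [64, 65], [66, 67], [68, 69], [38, 39], [40, 41], [42, 43], [44, 45], [46, 47], [70, 71], [72, 73], [74, 75], [76, 77], [78, 79], [80, 81], [82, 83], [84, 85], [86, 87], [88, 89], [90, 91], [92, 93], [94, 95], [96, 97], [98, 99], [100, 101], [102, 103], [104, 105], [106, 107], [22, 23], [24, 25], [26, 27], [28, 29], [30, 31], [32, 33], [34, 35], [36, 37], [38, 39], [40, 41], [42, 43], [108, 109], [110, 111], [112, 113], [6, 7], [8, 9], [10, 11], [12, 13], [14, 15], [114,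 115], [116, 117], [118, 119], [120, 121], [122, 123], [124, 125], [126, 127], [128, 129], [130, 131], [132, 133], [134, 135], [92, 93], [94, 95], [96, 97], [98, 99], [100, 101], [136, 137], [138, 139], [140, 141], [120, 121], [122, 123], [124, 125], [126, 127], [128, 129], [142, 143], [144, 145], [146, 147], [38, 39], [40, 41], [42, 43], [148, 149], [150, 151], [152, 153], [6, 7], [8, 9], [10, 11], [154, 155], [156, 157], [158, 159], [160, 161], [162, 163], [164, 165], [166, 167], [168, 169], [170, 171], [172, 173], [174, 175], [76, 77], [78, 79], [80, 81], [82, 83], [84, 85], [86, 87], [88, 89], [90, 91], [92, 93], [94, 95], [96, 97], [176, 177], [178, 179], [180, 181], [160, 161], [162, 163], [164, 165], [182, 183], [184, 185], [186, 187], [38, 39], [40, 41], [42, 43], [108, 109], [110, 111], [112,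 113], [6, 7], [8, 9], [10, 11], [188, 189], [190, 191], [192, 193], [160, 161], [162, 163], [164, 165], [166, 167], [168, 169], [194, 195], [196, 197], [198, 199], [54, 55], [56, 57], [58, 59], [60, 61], [62, 63], [200, 201], [202, 203], [204, 205], [6, 7], [8, 9], [10, 11], [206, 207], [208, 209], [210, 211], [160, 161], [162, 163], [164, 165], [142, 143], [144, 145], [146, 147], [38, 39], [40, 41], [42, 43], [154, 155], [156, 157], [158, 159], [160, 161], [162, 163], [164, 165], [212, 213], [214, 215], [216, 217], [92, 93], [94, 95], [96, 97], [218, 219], [220, 221], [222, 223], [6, 7], [8, 9], [10, 11], [176, 177], [178, 179], [180, 181], [160, 161], [162, 163], [164, 165], [224, 225], [226, 227], [228, 229], [92, 93], [94, 95], [96, 97], [200, 201], [202, 203], [204, 205], [6, 7], [8, 9], [10, 11],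 [212, 213], [214, 215], [216, 217], [92, 93], [94, 95], [96, 97]]

lemma S_closed : ∀ w ∈ S, ∀ e < 2, step 2 32 e [1, 27, 10, 22, 5, 31] w ∈ S :=
  chk_sound _ _ _ S S I (by decide +kernel)

lemma S_fin : ∀ w ∈ S, ∀ e < 2,
    ev 2 e w [1, 11, 18, 14, 1, 3, 24, 8, 2, 22, 12, 20, 10, 30, 24, 8, 29, 31, 18, 14, 21, 31] 0 % 32 ≠ 0 := by
  decide +kernel

lemma h32 : (32 : (ZMod 32)⟦X⟧) = 0 := by
  rw [← map_ofNat (C : ZMod 32 →+* (ZMod 32)⟦X⟧) 32, show (32 : ZMod 32) = 0 from rfl, map_zero]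

noncomputable def T (N : ℕ) : (ZMod 32)⟦X⟧ := ∏ i ∈ range N, (1 - X ^ 2 ^ i)

lemma T_succ (N : ℕ) : T (N + 1) = (1 - X) * expand 2 two_ne_zero (T N) := by
  rw [T, T, prod_range_succ', map_prod, mul_comm]
  simp only [map_sub, map_one, map_pow, expand_X, ← pow_mul, ← pow_succ', pow_zero, pow_one]

lemma frob (y : (ZMod 32)⟦X⟧) : (1 - y) ^ 32 = (1 - y ^ 2) ^ 16 := by
  have h : (2 : (ZMod 32)⟦X⟧) ∣ (1 - y) ^ 2 - (1 - y ^ 2) := ⟨y ^ 2 - y, by ring⟩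
  have := dvd_sub_pow_of_dvd_sub (p := 2) (by exact_mod_cast h) 4
  rw [show ((2 : ℕ) : (ZMod 32)⟦X⟧) ^ (4 + 1) = 0 by rw [← h32]; norm_num, zero_dvd_iff,
    sub_eq_zero, ← pow_mul] at this
  exact this

lemma T16 (N : ℕ) : T N ^ 16 * (1 - X) ^ 16 = (1 - X ^ 2 ^ N) ^ 16 := by
  induction N with
  | zero => simp [T]
  | succ N ih =>
    rw [T, prod_range_succ, ← T, mul_pow, mul_right_comm, ih, ← pow_add, frob, ← pow_mul,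
      ← pow_succ]

lemma key (N : ℕ) : (∏ i ∈ range N, geo (ZMod 32) (2 ^ i)) ^ 11 =
    geo (ZMod 32) (2 ^ N) ^ 16 * ((1 - X) ^ 16 * T N ^ 5) := by
  have h1 : (∏ i ∈ range N, geo (ZMod 32) (2 ^ i)) * T N = 1 := by
    rw [T, ← prod_mul_distrib]
    exact prod_eq_one fun i _ => geo_mul _ (by positivity)
  have h2 := geo_mul (R := ZMod 32) (2 ^ N) (by positivity)
  have h3 := T16 N
  generalize ∏ i ∈ range N, geo (ZMod 32) (2 ^ i) = P at *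
  have h4 : P ^ 11 * T N ^ 11 = 1 := by rw [← mul_pow, h1, one_pow]
  have h5 : geo (ZMod 32) (2 ^ N) ^ 16 * (1 - X ^ 2 ^ N) ^ 16 = 1 := by rw [← mul_pow, h2, one_pow]
  linear_combination (-P ^ 11) * h5 - P ^ 11 * geo (ZMod 32) (2 ^ N) ^ 16 * h3 +
    geo (ZMod 32) (2 ^ N) ^ 16 * (1 - X) ^ 16 * T N ^ 5 * h4

theorem not_dvd (n : ℕ) : ¬ 32 ∣ coeff n ((∏ i ∈ range (n + 1), geo ℕ (2 ^ i)) ^ 11) := by
  intro h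
  have h1 : coeff n ((∏ i ∈ range (n + 1), geo (ZMod 32) (2 ^ i)) ^ 11) = 0 := by
    have := (ZMod.natCast_eq_zero_iff _ 32).mpr h
    rw [← eq_natCast (Nat.castRingHom (ZMod 32)), ← coeff_map, map_pow, map_prod] at this
    simpa only [map_geo] using this
  have p5 : poly (ZMod 32) [1, 27, 10, 22, 5, 31] = (1 - X) ^ 5 := by
    simp only [poly]
    push_cast
    linear_combination (X + X ^ 3 + X ^ 5) * h32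
  have p21 : poly (ZMod 32) [1, 11, 18, 14, 1, 3, 24, 8, 2, 22, 12, 20, 10, 30, 24, 8, 29, 31, 18, 14, 21, 31] = (1 - X) ^ 21 := by
    simp only [poly]
    push_cast
    linear_combination ((0) * X ^ 0 + (1) * X ^ 1 + (-6) * X ^ 2 + (42) * X ^ 3 + (-187) * X ^ 4 + (636) * X ^ 5 + (-1695) * X ^ 6 + (3634) * X ^ 7 + (-6359) * X ^ 8 + (9186) * X ^ 9 + (-11022) * X ^ 10 + (11023) * X ^ 11 + (-9185) * X ^ 12 + (6360) * X ^ 13 + (-3633) * X ^ 14 + (1696) * X ^ 15 + (-635) * X ^ 16 + (188) * X ^ 17 + (-41) * X ^ 18 + (7) * X ^ 19 + (0) * X ^ 20 + (1) * X ^ 21) * h32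
  have hn : n < 2 ^ (n + 1) := (Nat.lt_succ_self n).trans (Nat.lt_pow_self (by norm_num))
  obtain ⟨w, hw, hw1, hw2⟩ := window (R := ZMod 32) 2 32 10 rfl two_ne_zero [1, 27, 10, 22, 5, 31]
    (by norm_num) S (by decide +kernel) S_closed (fun N => T N ^ 5) (by simp [T])
    (fun N => by rw [T_succ, mul_pow, map_pow, p5]) n (n / 2) (by omega)
  have h2 := coeff_poly_expand 2 two_ne_zero (n % 2) (n / 2) (by omega) _ w hw2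
    [1, 11, 18, 14, 1, 3, 24, 8, 2, 22, 12, 20, 10, 30, 24, 8, 29, 31, 18, 14, 21, 31] 0 (by rw [hw1]; norm_num)
  rw [key, coeff_geo_pow_mul _ _ _ hn, T_succ, mul_pow, ← mul_assoc, ← pow_add] at h1
  rw [Nat.div_add_mod, pow_zero, one_mul, p21, map_pow, h1, eq_comm,
    ZMod.natCast_eq_zero_iff] at h2
  exact S_fin w hw (n % 2) (by omega) (Nat.mod_eq_zero_of_dvd h2)

end Pool.Agent.H.MP_874039_nt
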